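import Pool.Agent.Helper34.CX.D4.Cx

/-!
# Project CX (MP_f22a19_gt): the combinatorial certificate
-/

set_option autoImplicit false

namespace Pool.CX.D4

open Pool.CX Helper69.CX

theorem item_ok : LW.all (okItem 112 512 27 tabW) = true := by decide +kernel

theorem mask_ok : masks (2 ^ (2 * LW.length) - 1) (2 ^ 112 - 1) 0 0 0 LW = true := by decide +kernel

theorem tab_ok : tabIncr 27 tabW (2 * LW.length - 1) = true := by decide +kernel

theorem conn_ok : connI LW psW = true := by decide +kernel

theorem cert_ok : cert 112 512 27 tabW LW psW = true :=
  cert_of (by norm_num) (by decide +kernel) item_ok mask_ok tab_ok conn_ok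

end Pool.CX.D4
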