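import Pool.Agent.Helper34.CX.D4.Cx
import Pool.Agent.Helper34.CX.D4.Pt

/-!
# Project CX (MP_f22a19_gt): fans (generated data)
-/

set_option autoImplicit false

namespace Pool.CX.D4

open Pool.CX Helper69.CX

/-- certificate of a vertex -/
def c14 : VCert := ⟨q2, [e48 7, e49 21, e50 28, e51 35, e52 42, e53 49, e54 56, e55 63, e56 70, e57 77, e58 84, e59 91, e60 98, e61 105], (Int.negSucc 8, 30, 2)⟩

/-- certificate of a vertex -/
def c15 : VCert := ⟨q2, [e48 8, e49 22, e50 29, e51 36, e52 43, e53 50, e54 57, e55 64, e56 71, e57 78, e58 85, e59 92, e60 99, e61 106], (Int.negSucc 8, 30, 2)⟩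

/-- certificate of a vertex -/
def c16 : VCert := ⟨q2, [e48 9, e49 23, e50 30, e51 37, e52 44, e53 51, e54 58, e55 65, e56 72, e57 79, e58 86, e59 93, e60 100, e61 107], (Int.negSucc 100, 2, 200)⟩

/-- certificate of a vertex -/
def c17 : VCert := ⟨q2, [e48 10, e49 24, e50 31, e51 38, e52 45, e53 52, e54 59, e55 66, e56 73, e57 80, e58 87, e59 94, e60 101, e61 108], (4, 0, 17)⟩

/-- certificate of a vertex -/
def c18 : VCert := ⟨q2, [e48 11, e49 25, e50 32, e51 39, e52 46, e53 53, e54 60, e55 67, e56 74, e57 81, e58 88, e59 95, e60 102, e61 109], (Int.negSucc 5, Int.negSucc 16, 16)⟩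

/-- certificate of a vertex -/
def c19 : VCert := ⟨q2, [e48 12, e49 26, e50 33, e51 40, e52 47, e53 54, e54 61, e55 68, e56 75, e57 82, e58 89, e59 96, e60 103, e61 110], (Int.negSucc 17, 11, 10)⟩

/-- certificate of a vertex -/
def c20 : VCert := ⟨q2, [e48 13, e49 27, e50 34, e51 41, e52 48, e53 55, e54 62, e55 69, e56 76, e57 83, e58 90, e59 97, e60 104, e61 111], (Int.negSucc 17, 11, 10)⟩

/-- certificate of a vertex -/
def c21 : VCert := ⟨q3, [e62 7, e63 14, e64 28, e65 35, e66 42, e67 49, e68 56, e69 59, e70 62, e71 63, e72 70, e73 77, e74 84, e75 87, e76 90, e77 91, e78 98, e79 105], (Int.negSucc 2, 13, 1)⟩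

/-- certificate of a vertex -/
def c22 : VCert := ⟨q3, [e62 8, e63 15, e64 29, e65 36, e66 43, e67 50, e70 56, e68 57, e69 60, e71 64, e72 71, e73 78, e76 84, e74 85, e75 88, e77 92, e78 99, e79 106], (Int.negSucc 9, Int.negSucc 13, 4)⟩

/-- certificate of a vertex -/
def c23 : VCert := ⟨q3, [e62 9, e63 16, e64 30, e65 37, e66 44, e67 51, e70 57, e68 58, e69 61, e71 65, e72 72, e73 79, e76 85, e74 86, e75 89, e77 93, e78 100, e79 107], (Int.negSucc 9, Int.negSucc 13, 4)⟩

/-- certificate of a vertex -/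
def c24 : VCert := ⟨q3, [e62 10, e63 17, e64 31, e65 38, e66 45, e67 52, e70 58, e68 59, e69 62, e71 66, e72 73, e73 80, e76 86, e74 87, e75 90, e77 94, e78 101, e79 108], (Int.negSucc 9, Int.negSucc 13, 4)⟩

/-- certificate of a vertex -/
def c25 : VCert := ⟨q3, [e62 11, e63 18, e64 32, e65 39, e66 46, e67 53, e69 56, e70 59, e68 60, e71 67, e72 74, e73 81, e75 84, e76 87, e74 88, e77 95, e78 102, e79 109], (Int.negSucc 9, Int.negSucc 13, 4)⟩

/-- certificate of a vertex -/
def c26 : VCert := ⟨q3, [e62 12, e63 19, e64 33, e65 40, e66 47, e67 54, e69 57, e70 60, e68 61, e71 68, e72 75, e73 82, e75 85, e76 88, e74 89, e77 96, e78 103, e79 110], (Int.negSucc 9, Int.negSucc 13, 4)⟩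

/-- certificate of a vertex -/
def c27 : VCert := ⟨q3, [e62 13, e63 20, e64 34, e65 41, e66 48, e67 55, e69 58, e70 61, e68 62, e71 69, e72 76, e73 83, e75 86, e76 89, e74 90, e77 97, e78 104, e79 111], (Int.negSucc 9, Int.negSucc 13, 4)⟩

theorem v14 : chkV 112 81 sP boxP labF posF (foldN 84 56) (sideN 84) TW 14 c14 = true := by decide +kernel

theorem v15 : chkV 112 81 sP boxP labF posF (foldN 84 56) (sideN 84) TW 15 c15 = true := by decide +kernel

theorem v16 : chkV 112 81 sP boxP labF posF (foldN 84 56) (sideN 84) TW 16 c16 = true := by decide +kernel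

theorem v17 : chkV 112 81 sP boxP labF posF (foldN 84 56) (sideN 84) TW 17 c17 = true := by decide +kernel

theorem v18 : chkV 112 81 sP boxP labF posF (foldN 84 56) (sideN 84) TW 18 c18 = true := by decide +kernel

theorem v19 : chkV 112 81 sP boxP labF posF (foldN 84 56) (sideN 84) TW 19 c19 = true := by decide +kernel

theorem v20 : chkV 112 81 sP boxP labF posF (foldN 84 56) (sideN 84) TW 20 c20 = true := by decide +kernel

theorem v21 : chkV 112 81 sP boxP labF posF (foldN 84 56) (sideN 84) TW 21 c21 = true := by decide +kernel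

theorem v22 : chkV 112 81 sP boxP labF posF (foldN 84 56) (sideN 84) TW 22 c22 = true := by decide +kernel

theorem v23 : chkV 112 81 sP boxP labF posF (foldN 84 56) (sideN 84) TW 23 c23 = true := by decide +kernel

theorem v24 : chkV 112 81 sP boxP labF posF (foldN 84 56) (sideN 84) TW 24 c24 = true := by decide +kernel

theorem v25 : chkV 112 81 sP boxP labF posF (foldN 84 56) (sideN 84) TW 25 c25 = true := by decide +kernel

theorem v26 : chkV 112 81 sP boxP labF posF (foldN 84 56) (sideN 84) TW 26 c26 = true := by decide +kernel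

theorem v27 : chkV 112 81 sP boxP labF posF (foldN 84 56) (sideN 84) TW 27 c27 = true := by decide +kernel

theorem vs1 (v : ℕ) (h1 : 14 ≤ v) (h2 : v < 28) :
    ∃ c, chkV 112 81 sP boxP labF posF (foldN 84 56) (sideN 84) TW v c = true := by
  interval_cases v
  exacts [⟨c14, v14⟩, ⟨c15, v15⟩, ⟨c16, v16⟩, ⟨c17, v17⟩, ⟨c18, v18⟩, ⟨c19, v19⟩, ⟨c20, v20⟩, ⟨c21, v21⟩, ⟨c22, v22⟩, ⟨c23, v23⟩, ⟨c24, v24⟩, ⟨c25, v25⟩, ⟨c26, v26⟩, ⟨c27, v27⟩]

end Pool.CX.D4
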