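import Pool.Agent.Helper34.CX.D4.Cx
import Pool.Agent.Helper34.CX.D4.Pt

/-!
# Project CX (MP_f22a19_gt): fans (generated data)
-/

set_option autoImplicit false

namespace Pool.CX.D4

open Pool.CX Helper69.CX

/-- certificate of a vertex -/
def c28 : VCert := ⟨q4, [e80 7, e81 14, e82 21, e83 35, e84 42, e85 49, e86 63, e87 70, e88 77, e89 91, e90 98, e91 105], (Int.negSucc 7, Int.negSucc 9, 3)⟩

/-- certificate of a vertex -/
def c29 : VCert := ⟨q4, [e80 8, e81 15, e82 22, e83 36, e84 43, e85 50, e86 64, e87 71, e88 78, e89 92, e90 99, e91 106], (Int.negSucc 7, Int.negSucc 9, 3)⟩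

/-- certificate of a vertex -/
def c30 : VCert := ⟨q4, [e80 9, e81 16, e82 23, e83 37, e84 44, e85 51, e86 65, e87 72, e88 79, e89 93, e90 100, e91 107], (123, Int.negSucc 17, 100)⟩

/-- certificate of a vertex -/
def c31 : VCert := ⟨q4, [e80 10, e81 17, e82 24, e83 38, e84 45, e85 52, e86 66, e87 73, e88 80, e89 94, e90 101, e91 108], (Int.negSucc 7, Int.negSucc 9, 3)⟩

/-- certificate of a vertex -/
def c32 : VCert := ⟨q4, [e80 11, e81 18, e82 25, e83 39, e84 46, e85 53, e86 67, e87 74, e88 81, e89 95, e90 102, e91 109], (Int.negSucc 7, Int.negSucc 9, 3)⟩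

/-- certificate of a vertex -/
def c33 : VCert := ⟨q4, [e80 12, e81 19, e82 26, e83 40, e84 47, e85 54, e86 68, e87 75, e88 82, e89 96, e90 103, e91 110], (17, Int.negSucc 13, 7)⟩

/-- certificate of a vertex -/
def c34 : VCert := ⟨q4, [e80 13, e81 20, e82 27, e83 41, e84 48, e85 55, e86 69, e87 76, e88 83, e89 97, e90 104, e91 111], (123, Int.negSucc 17, 100)⟩

/-- certificate of a vertex -/
def c35 : VCert := ⟨q5, [e92 7, e93 14, e94 21, e95 28, e96 42, e97 49, e98 70, e99 98], (Int.negSucc 11, Int.negSucc 0, 1)⟩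

/-- certificate of a vertex -/
def c36 : VCert := ⟨q5, [e92 8, e93 15, e94 22, e95 29, e96 43, e97 50, e98 71, e99 99], (Int.negSucc 11, Int.negSucc 0, 1)⟩

/-- certificate of a vertex -/
def c37 : VCert := ⟨q5, [e92 9, e93 16, e94 23, e95 30, e96 44, e97 51, e98 72, e99 100], (Int.negSucc 0, 30, 1)⟩

/-- certificate of a vertex -/
def c38 : VCert := ⟨q5, [e92 10, e93 17, e94 24, e95 31, e96 45, e97 52, e98 73, e99 101], (Int.negSucc 11, Int.negSucc 0, 1)⟩

/-- certificate of a vertex -/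
def c39 : VCert := ⟨q5, [e92 11, e93 18, e94 25, e95 32, e96 46, e97 53, e98 74, e99 102], (Int.negSucc 11, Int.negSucc 0, 1)⟩

/-- certificate of a vertex -/
def c40 : VCert := ⟨q5, [e92 12, e93 19, e94 26, e95 33, e96 47, e97 54, e98 75, e99 103], (1, Int.negSucc 9, 1)⟩

/-- certificate of a vertex -/
def c41 : VCert := ⟨q5, [e92 13, e93 20, e94 27, e95 34, e96 48, e97 55, e98 76, e99 104], (1, Int.negSucc 9, 1)⟩

theorem v28 : chkV 112 81 sP boxP labF posF (foldN 84 56) (sideN 84) TW 28 c28 = true := by decide +kernel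

theorem v29 : chkV 112 81 sP boxP labF posF (foldN 84 56) (sideN 84) TW 29 c29 = true := by decide +kernel

theorem v30 : chkV 112 81 sP boxP labF posF (foldN 84 56) (sideN 84) TW 30 c30 = true := by decide +kernel

theorem v31 : chkV 112 81 sP boxP labF posF (foldN 84 56) (sideN 84) TW 31 c31 = true := by decide +kernel

theorem v32 : chkV 112 81 sP boxP labF posF (foldN 84 56) (sideN 84) TW 32 c32 = true := by decide +kernel

theorem v33 : chkV 112 81 sP boxP labF posF (foldN 84 56) (sideN 84) TW 33 c33 = true := by decide +kernel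

theorem v34 : chkV 112 81 sP boxP labF posF (foldN 84 56) (sideN 84) TW 34 c34 = true := by decide +kernel

theorem v35 : chkV 112 81 sP boxP labF posF (foldN 84 56) (sideN 84) TW 35 c35 = true := by decide +kernel

theorem v36 : chkV 112 81 sP boxP labF posF (foldN 84 56) (sideN 84) TW 36 c36 = true := by decide +kernel

theorem v37 : chkV 112 81 sP boxP labF posF (foldN 84 56) (sideN 84) TW 37 c37 = true := by decide +kernel

theorem v38 : chkV 112 81 sP boxP labF posF (foldN 84 56) (sideN 84) TW 38 c38 = true := by decide +kernel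

theorem v39 : chkV 112 81 sP boxP labF posF (foldN 84 56) (sideN 84) TW 39 c39 = true := by decide +kernel

theorem v40 : chkV 112 81 sP boxP labF posF (foldN 84 56) (sideN 84) TW 40 c40 = true := by decide +kernel

theorem v41 : chkV 112 81 sP boxP labF posF (foldN 84 56) (sideN 84) TW 41 c41 = true := by decide +kernel

theorem vs2 (v : ℕ) (h1 : 28 ≤ v) (h2 : v < 42) :
    ∃ c, chkV 112 81 sP boxP labF posF (foldN 84 56) (sideN 84) TW v c = true := by
  interval_cases v
  exacts [⟨c28, v28⟩, ⟨c29, v29⟩, ⟨c30, v30⟩, ⟨c31, v31⟩, ⟨c32, v32⟩, ⟨c33, v33⟩, ⟨c34, v34⟩, ⟨c35, v35⟩, ⟨c36, v36⟩, ⟨c37, v37⟩, ⟨c38, v38⟩, ⟨c39, v39⟩, ⟨c40, v40⟩, ⟨c41, v41⟩]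

end Pool.CX.D4
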