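import Pool.Agent.Helper34.CX.D4.Cx
import Pool.Agent.Helper34.CX.D4.Pt

/-!
# Project CX (MP_f22a19_gt): fans (generated data)
-/

set_option autoImplicit false

namespace Pool.CX.D4

open Pool.CX Helper69.CX

/-- certificate of a vertex -/
def c42 : VCert := ⟨q6, [e100 7, e101 14, e102 21, e103 28, e104 35, e105 49, e106 56, e107 58, e108 61, e109 62, e110 63, e111 70, e112 76, e113 77, e114 84, e115 86, e116 89, e117 90, e118 91, e119 98, e120 104, e121 105], (1, 11, 2)⟩

/-- certificate of a vertex -/
def c43 : VCert := ⟨q6, [e100 8, e101 15, e102 22, e103 29, e104 36, e105 50, e109 56, e106 57, e107 59, e108 62, e110 64, e112 70, e111 71, e113 78, e117 84, e114 85, e115 87, e116 90, e118 92, e120 98, e119 99, e121 106], (1, 11, 2)⟩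

/-- certificate of a vertex -/
def c44 : VCert := ⟨q6, [e100 9, e101 16, e102 23, e103 30, e104 37, e105 51, e108 56, e109 57, e106 58, e107 60, e110 65, e112 71, e111 72, e113 79, e116 84, e117 85, e114 86, e115 88, e118 93, e120 99, e119 100, e121 107], (1, 11, 2)⟩

/-- certificate of a vertex -/
def c45 : VCert := ⟨q6, [e100 10, e101 17, e102 24, e103 31, e104 38, e105 52, e108 57, e109 58, e106 59, e107 61, e110 66, e112 72, e111 73, e113 80, e116 85, e117 86, e114 87, e115 89, e118 94, e120 100, e119 101, e121 108], (1, 11, 2)⟩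

/-- certificate of a vertex -/
def c46 : VCert := ⟨q6, [e100 11, e101 18, e102 25, e103 32, e104 39, e105 53, e108 58, e109 59, e106 60, e107 62, e110 67, e112 73, e111 74, e113 81, e116 86, e117 87, e114 88, e115 90, e118 95, e120 101, e119 102, e121 109], (1, 11, 2)⟩

/-- certificate of a vertex -/
def c47 : VCert := ⟨q6, [e100 12, e101 19, e102 26, e103 33, e104 40, e105 54, e107 56, e108 59, e109 60, e106 61, e110 68, e112 74, e111 75, e113 82, e115 84, e116 87, e117 88, e114 89, e118 96, e120 102, e119 103, e121 110], (1, 11, 2)⟩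

/-- certificate of a vertex -/
def c48 : VCert := ⟨q6, [e100 13, e101 20, e102 27, e103 34, e104 41, e105 55, e107 57, e108 60, e109 61, e106 62, e110 69, e112 75, e111 76, e113 83, e115 85, e116 88, e117 89, e114 90, e118 97, e120 103, e119 104, e121 111], (1, 11, 2)⟩

/-- certificate of a vertex -/
def c49 : VCert := ⟨q7, [e122 7, e123 14, e124 21, e125 28, e126 35, e127 42, e128 70, e129 77, e130 98, e131 105], (Int.negSucc 19, Int.negSucc 9, 5)⟩

/-- certificate of a vertex -/
def c50 : VCert := ⟨q7, [e122 8, e123 15, e124 22, e125 29, e126 36, e127 43, e128 71, e129 78, e130 99, e131 106], (Int.negSucc 19, Int.negSucc 9, 5)⟩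

/-- certificate of a vertex -/
def c51 : VCert := ⟨q7, [e122 9, e123 16, e124 23, e125 30, e126 37, e127 44, e128 72, e129 79, e130 100, e131 107], (Int.negSucc 9, 3, 4)⟩

/-- certificate of a vertex -/
def c52 : VCert := ⟨q7, [e122 10, e123 17, e124 24, e125 31, e126 38, e127 45, e128 73, e129 80, e130 101, e131 108], (Int.negSucc 29, 2, 5)⟩

/-- certificate of a vertex -/
def c53 : VCert := ⟨q7, [e122 11, e123 18, e124 25, e125 32, e126 39, e127 46, e128 74, e129 81, e130 102, e131 109], (Int.negSucc 29, 2, 5)⟩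

/-- certificate of a vertex -/
def c54 : VCert := ⟨q7, [e122 12, e123 19, e124 26, e125 33, e126 40, e127 47, e128 75, e129 82, e130 103, e131 110], (10, 0, 4)⟩

/-- certificate of a vertex -/
def c55 : VCert := ⟨q7, [e122 13, e123 20, e124 27, e125 34, e126 41, e127 48, e128 76, e129 83, e130 104, e131 111], (Int.negSucc 29, Int.negSucc 9, 1)⟩

theorem v42 : chkV 112 81 sP boxP labF posF (foldN 84 56) (sideN 84) TW 42 c42 = true := by decide +kernel

theorem v43 : chkV 112 81 sP boxP labF posF (foldN 84 56) (sideN 84) TW 43 c43 = true := by decide +kernel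

theorem v44 : chkV 112 81 sP boxP labF posF (foldN 84 56) (sideN 84) TW 44 c44 = true := by decide +kernel

theorem v45 : chkV 112 81 sP boxP labF posF (foldN 84 56) (sideN 84) TW 45 c45 = true := by decide +kernel

theorem v46 : chkV 112 81 sP boxP labF posF (foldN 84 56) (sideN 84) TW 46 c46 = true := by decide +kernel

theorem v47 : chkV 112 81 sP boxP labF posF (foldN 84 56) (sideN 84) TW 47 c47 = true := by decide +kernel

theorem v48 : chkV 112 81 sP boxP labF posF (foldN 84 56) (sideN 84) TW 48 c48 = true := by decide +kernel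

theorem v49 : chkV 112 81 sP boxP labF posF (foldN 84 56) (sideN 84) TW 49 c49 = true := by decide +kernel

theorem v50 : chkV 112 81 sP boxP labF posF (foldN 84 56) (sideN 84) TW 50 c50 = true := by decide +kernel

theorem v51 : chkV 112 81 sP boxP labF posF (foldN 84 56) (sideN 84) TW 51 c51 = true := by decide +kernel

theorem v52 : chkV 112 81 sP boxP labF posF (foldN 84 56) (sideN 84) TW 52 c52 = true := by decide +kernel

theorem v53 : chkV 112 81 sP boxP labF posF (foldN 84 56) (sideN 84) TW 53 c53 = true := by decide +kernel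

theorem v54 : chkV 112 81 sP boxP labF posF (foldN 84 56) (sideN 84) TW 54 c54 = true := by decide +kernel

theorem v55 : chkV 112 81 sP boxP labF posF (foldN 84 56) (sideN 84) TW 55 c55 = true := by decide +kernel

theorem vs3 (v : ℕ) (h1 : 42 ≤ v) (h2 : v < 56) :
    ∃ c, chkV 112 81 sP boxP labF posF (foldN 84 56) (sideN 84) TW v c = true := by
  interval_cases v
  exacts [⟨c42, v42⟩, ⟨c43, v43⟩, ⟨c44, v44⟩, ⟨c45, v45⟩, ⟨c46, v46⟩, ⟨c47, v47⟩, ⟨c48, v48⟩, ⟨c49, v49⟩, ⟨c50, v50⟩, ⟨c51, v51⟩, ⟨c52, v52⟩, ⟨c53, v53⟩, ⟨c54, v54⟩, ⟨c55, v55⟩]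

end Pool.CX.D4
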