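import Pool.Agent.Helper34.CX.D4.Cx
import Pool.Agent.Helper34.CX.D4.Pt

/-!
# Project CX (MP_f22a19_gt): fans (generated data)
-/

set_option autoImplicit false

namespace Pool.CX.D4

open Pool.CX Helper69.CX

/-- certificate of a vertex -/
def c56 : VCert := ⟨q8, [e132 0, e133 4, e134 5, e135 6, e136 7, e137 9, e138 11, e139 12, e140 13, e141 14, e142 21, e143 22, e144 25, e145 42, e146 43, e147 44, e148 47, e149 59, e150 60, e151 63, e152 64, e153 65, e154 67, e155 69, e156 70, e157 71, e158 74, e159 76, e160 77, e161 81, e162 82, e163 83], (2, 1, Int.negSucc 29)⟩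

/-- certificate of a vertex -/
def c57 : VCert := ⟨q8, [e135 0, e132 1, e133 5, e134 6, e140 7, e136 8, e137 10, e138 12, e139 13, e141 15, e142 22, e143 23, e144 26, e145 43, e146 44, e147 45, e148 48, e149 60, e150 61, e155 63, e151 64, e152 65, e153 66, e154 68, e159 70, e156 71, e157 72, e158 75, e163 77, e160 78, e161 82, e162 83], (Int.negSucc 12243, 4248, 300000)⟩

/-- certificate of a vertex -/
def c58 : VCert := ⟨q8, [e134 0, e135 1, e132 2, e133 6, e139 7, e140 8, e136 9, e137 11, e138 13, e141 16, e142 23, e143 24, e144 27, e148 42, e145 44, e146 45, e147 46, e149 61, e150 62, e155 64, e151 65, e152 66, e153 67, e154 69, e159 71, e156 72, e157 73, e158 76, e162 77, e163 78, e160 79, e161 83], (Int.negSucc 12243, 4248, 300000)⟩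

/-- certificate of a vertex -/
def c59 : VCert := ⟨q8, [e133 0, e134 1, e135 2, e132 3, e138 7, e139 8, e140 9, e136 10, e137 12, e141 17, e144 21, e142 24, e143 25, e148 43, e145 45, e146 46, e147 47, e150 56, e149 62, e154 63, e155 65, e151 66, e152 67, e153 68, e158 70, e159 72, e156 73, e157 74, e161 77, e162 78, e163 79, e160 80], (Int.negSucc 15, Int.negSucc 10, 300)⟩

/-- certificate of a vertex -/
def c60 : VCert := ⟨q8, [e133 1, e134 2, e135 3, e132 4, e138 8, e139 9, e140 10, e136 11, e137 13, e141 18, e144 22, e142 25, e143 26, e148 44, e145 46, e146 47, e147 48, e149 56, e150 57, e154 64, e155 66, e151 67, e152 68, e153 69, e158 71, e159 73, e156 74, e157 75, e161 78, e162 79, e163 80, e160 81], (Int.negSucc 12243, 4248, 300000)⟩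

/-- certificate of a vertex -/
def c61 : VCert := ⟨q8, [e133 2, e134 3, e135 4, e132 5, e137 7, e138 9, e139 10, e140 11, e136 12, e141 19, e144 23, e142 26, e143 27, e147 42, e148 45, e145 47, e146 48, e149 57, e150 58, e153 63, e154 65, e155 67, e151 68, e152 69, e158 72, e159 74, e156 75, e157 76, e161 79, e162 80, e163 81, e160 82], (Int.negSucc 101049, 40934, 3000000)⟩

/-- certificate of a vertex -/
def c62 : VCert := ⟨q8, [e133 3, e134 4, e135 5, e132 6, e137 8, e138 10, e139 11, e140 12, e136 13, e141 20, e143 21, e144 24, e142 27, e146 42, e147 43, e148 46, e145 48, e149 58, e150 59, e152 63, e153 64, e154 66, e155 68, e151 69, e157 70, e158 73, e159 75, e156 76, e161 80, e162 81, e163 82, e160 83], (Int.negSucc 12243, 4248, 300000)⟩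

/-- certificate of a vertex -/
def c63 : VCert := ⟨q9, [e164 7, e165 12, e166 14, e167 21, e168 28, e169 42, e170 56, e171 57, e172 59, e173 61, e174 62, e175 70, e176 76, e177 77], (Int.negSucc 99999, 955, 68095)⟩

/-- certificate of a vertex -/
def c64 : VCert := ⟨q9, [e164 8, e165 13, e166 15, e167 22, e168 29, e169 43, e174 56, e170 57, e171 58, e172 60, e173 62, e176 70, e175 71, e177 78], (Int.negSucc 99999, 955, 68095)⟩

/-- certificate of a vertex -/
def c65 : VCert := ⟨q9, [e165 7, e164 9, e166 16, e167 23, e168 30, e169 44, e173 56, e174 57, e170 58, e171 59, e172 61, e176 71, e175 72, e177 79], (300000, Int.negSucc 1622, Int.negSucc 188321)⟩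

/-- certificate of a vertex -/
def c66 : VCert := ⟨q9, [e165 8, e164 10, e166 17, e167 24, e168 31, e169 45, e173 57, e174 58, e170 59, e171 60, e172 62, e176 72, e175 73, e177 80], (Int.negSucc 99999, 955, 68095)⟩

/-- certificate of a vertex -/
def c67 : VCert := ⟨q9, [e165 9, e164 11, e166 18, e167 25, e168 32, e169 46, e172 56, e173 58, e174 59, e170 60, e171 61, e176 73, e175 74, e177 81], (Int.negSucc 99999, 955, 68095)⟩

/-- certificate of a vertex -/
def c68 : VCert := ⟨q9, [e165 10, e164 12, e166 19, e167 26, e168 33, e169 47, e172 57, e173 59, e174 60, e170 61, e171 62, e176 74, e175 75, e177 82], (Int.negSucc 99999, 955, 68095)⟩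

/-- certificate of a vertex -/
def c69 : VCert := ⟨q9, [e165 11, e164 13, e166 20, e167 27, e168 34, e169 48, e171 56, e172 58, e173 60, e174 61, e170 62, e176 75, e175 76, e177 83], (Int.negSucc 99999, 955, 68095)⟩

theorem v56 : chkV 112 81 sP boxP labF posF (foldN 84 56) (sideN 84) TW 56 c56 = true := by decide +kernel

theorem v57 : chkV 112 81 sP boxP labF posF (foldN 84 56) (sideN 84) TW 57 c57 = true := by decide +kernel

theorem v58 : chkV 112 81 sP boxP labF posF (foldN 84 56) (sideN 84) TW 58 c58 = true := by decide +kernel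

theorem v59 : chkV 112 81 sP boxP labF posF (foldN 84 56) (sideN 84) TW 59 c59 = true := by decide +kernel

theorem v60 : chkV 112 81 sP boxP labF posF (foldN 84 56) (sideN 84) TW 60 c60 = true := by decide +kernel

theorem v61 : chkV 112 81 sP boxP labF posF (foldN 84 56) (sideN 84) TW 61 c61 = true := by decide +kernel

theorem v62 : chkV 112 81 sP boxP labF posF (foldN 84 56) (sideN 84) TW 62 c62 = true := by decide +kernel

theorem v63 : chkV 112 81 sP boxP labF posF (foldN 84 56) (sideN 84) TW 63 c63 = true := by decide +kernel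

theorem v64 : chkV 112 81 sP boxP labF posF (foldN 84 56) (sideN 84) TW 64 c64 = true := by decide +kernel

theorem v65 : chkV 112 81 sP boxP labF posF (foldN 84 56) (sideN 84) TW 65 c65 = true := by decide +kernel

theorem v66 : chkV 112 81 sP boxP labF posF (foldN 84 56) (sideN 84) TW 66 c66 = true := by decide +kernel

theorem v67 : chkV 112 81 sP boxP labF posF (foldN 84 56) (sideN 84) TW 67 c67 = true := by decide +kernel

theorem v68 : chkV 112 81 sP boxP labF posF (foldN 84 56) (sideN 84) TW 68 c68 = true := by decide +kernel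

theorem v69 : chkV 112 81 sP boxP labF posF (foldN 84 56) (sideN 84) TW 69 c69 = true := by decide +kernel

theorem vs4 (v : ℕ) (h1 : 56 ≤ v) (h2 : v < 70) :
    ∃ c, chkV 112 81 sP boxP labF posF (foldN 84 56) (sideN 84) TW v c = true := by
  interval_cases v
  exacts [⟨c56, v56⟩, ⟨c57, v57⟩, ⟨c58, v58⟩, ⟨c59, v59⟩, ⟨c60, v60⟩, ⟨c61, v61⟩, ⟨c62, v62⟩, ⟨c63, v63⟩, ⟨c64, v64⟩, ⟨c65, v65⟩, ⟨c66, v66⟩, ⟨c67, v67⟩, ⟨c68, v68⟩, ⟨c69, v69⟩]

end Pool.CX.D4
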