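import Pool.Agent.Helper34.CX.D4.Cx
import Pool.Agent.Helper34.CX.D4.Pt

/-!
# Project CX (MP_f22a19_gt): fans (generated data)
-/

set_option autoImplicit false

namespace Pool.CX.D4

open Pool.CX Helper69.CX

/-- certificate of a vertex -/
def c70 : VCert := ⟨q10, [e178 7, e179 13, e180 14, e181 21, e182 28, e183 35, e184 42, e185 43, e186 49, e187 56, e188 57, e189 59, e190 62, e191 63, e192 64, e193 71, e194 76, e195 77, e196 78], (Int.negSucc 9999, 4075, Int.negSucc 22496)⟩

/-- certificate of a vertex -/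
def c71 : VCert := ⟨q10, [e179 7, e178 8, e180 15, e181 22, e182 29, e183 36, e184 43, e185 44, e186 50, e190 56, e187 57, e188 58, e189 60, e191 64, e192 65, e194 70, e193 72, e195 78, e196 79], (30, Int.negSucc 0, Int.negSucc 11)⟩

/-- certificate of a vertex -/
def c72 : VCert := ⟨q10, [e179 8, e178 9, e180 16, e181 23, e182 30, e183 37, e184 44, e185 45, e186 51, e190 57, e187 58, e188 59, e189 61, e191 65, e192 66, e194 71, e193 73, e195 79, e196 80], (30, Int.negSucc 0, Int.negSucc 11)⟩

/-- certificate of a vertex -/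
def c73 : VCert := ⟨q10, [e179 9, e178 10, e180 17, e181 24, e182 31, e183 38, e184 45, e185 46, e186 52, e190 58, e187 59, e188 60, e189 62, e191 66, e192 67, e194 72, e193 74, e195 80, e196 81], (Int.negSucc 9999, 4075, Int.negSucc 22496)⟩

/-- certificate of a vertex -/
def c74 : VCert := ⟨q10, [e179 10, e178 11, e180 18, e181 25, e182 32, e183 39, e184 46, e185 47, e186 53, e189 56, e190 59, e187 60, e188 61, e191 67, e192 68, e194 73, e193 75, e195 81, e196 82], (30, Int.negSucc 0, Int.negSucc 11)⟩

/-- certificate of a vertex -/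
def c75 : VCert := ⟨q10, [e179 11, e178 12, e180 19, e181 26, e182 33, e183 40, e184 47, e185 48, e186 54, e189 57, e190 60, e187 61, e188 62, e191 68, e192 69, e194 74, e193 76, e195 82, e196 83], (Int.negSucc 9999, 4075, Int.negSucc 22496)⟩

/-- certificate of a vertex -/
def c76 : VCert := ⟨q10, [e179 12, e178 13, e180 20, e181 27, e182 34, e183 41, e185 42, e184 48, e186 55, e188 56, e189 58, e190 61, e187 62, e192 63, e191 69, e193 70, e194 75, e196 77, e195 83], (30, Int.negSucc 0, Int.negSucc 11)⟩

/-- certificate of a vertex -/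
def c77 : VCert := ⟨q11, [e197 0, e198 2, e199 6, e200 7, e201 12, e202 14, e203 21, e204 28, e205 42, e206 49, e207 56, e208 57, e209 58, e210 59, e211 63, e212 70, e213 76, e214 78, e215 79, e216 82, e217 83], (208, 12, Int.negSucc 200)⟩

/-- certificate of a vertex -/
def c78 : VCert := ⟨q11, [e199 0, e197 1, e198 3, e200 8, e201 13, e202 15, e203 22, e204 29, e205 43, e206 50, e207 57, e208 58, e209 59, e210 60, e211 64, e213 70, e212 71, e217 77, e214 79, e215 80, e216 83], (Int.negSucc 539, 34, 2505)⟩

/-- certificate of a vertex -/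
def c79 : VCert := ⟨q11, [e199 1, e197 2, e198 4, e201 7, e200 9, e202 16, e203 23, e204 30, e205 44, e206 51, e207 58, e208 59, e209 60, e210 61, e211 65, e213 71, e212 72, e216 77, e217 78, e214 80, e215 81], (300, Int.negSucc 1, Int.negSucc 179)⟩

/-- certificate of a vertex -/
def c80 : VCert := ⟨q11, [e199 2, e197 3, e198 5, e201 8, e200 10, e202 17, e203 24, e204 31, e205 45, e206 52, e207 59, e208 60, e209 61, e210 62, e211 66, e213 72, e212 73, e216 78, e217 79, e214 81, e215 82], (Int.negSucc 539, 34, 2505)⟩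

/-- certificate of a vertex -/
def c81 : VCert := ⟨q11, [e199 3, e197 4, e198 6, e201 9, e200 11, e202 18, e203 25, e204 32, e205 46, e206 53, e210 56, e207 60, e208 61, e209 62, e211 67, e213 73, e212 74, e216 79, e217 80, e214 82, e215 83], (30000, Int.negSucc 161, Int.negSucc 18824)⟩

/-- certificate of a vertex -/
def c82 : VCert := ⟨q11, [e198 0, e199 4, e197 5, e201 10, e200 12, e202 19, e203 26, e204 33, e205 47, e206 54, e209 56, e210 57, e207 61, e208 62, e211 68, e213 74, e212 75, e215 77, e216 80, e217 81, e214 83], (634572, 42216, 3000000)⟩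

/-- certificate of a vertex -/
def c83 : VCert := ⟨q11, [e198 1, e199 5, e197 6, e201 11, e200 13, e202 20, e203 27, e204 34, e205 48, e206 55, e208 56, e209 57, e210 58, e207 62, e211 69, e213 75, e212 76, e214 77, e215 78, e216 81, e217 82], (300, Int.negSucc 1, Int.negSucc 179)⟩

theorem v70 : chkV 112 81 sP boxP labF posF (foldN 84 56) (sideN 84) TW 70 c70 = true := by decide +kernel

theorem v71 : chkV 112 81 sP boxP labF posF (foldN 84 56) (sideN 84) TW 71 c71 = true := by decide +kernel

theorem v72 : chkV 112 81 sP boxP labF posF (foldN 84 56) (sideN 84) TW 72 c72 = true := by decide +kernel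

theorem v73 : chkV 112 81 sP boxP labF posF (foldN 84 56) (sideN 84) TW 73 c73 = true := by decide +kernel

theorem v74 : chkV 112 81 sP boxP labF posF (foldN 84 56) (sideN 84) TW 74 c74 = true := by decide +kernel

theorem v75 : chkV 112 81 sP boxP labF posF (foldN 84 56) (sideN 84) TW 75 c75 = true := by decide +kernel

theorem v76 : chkV 112 81 sP boxP labF posF (foldN 84 56) (sideN 84) TW 76 c76 = true := by decide +kernel

theorem v77 : chkV 112 81 sP boxP labF posF (foldN 84 56) (sideN 84) TW 77 c77 = true := by decide +kernel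

theorem v78 : chkV 112 81 sP boxP labF posF (foldN 84 56) (sideN 84) TW 78 c78 = true := by decide +kernel

theorem v79 : chkV 112 81 sP boxP labF posF (foldN 84 56) (sideN 84) TW 79 c79 = true := by decide +kernel

theorem v80 : chkV 112 81 sP boxP labF posF (foldN 84 56) (sideN 84) TW 80 c80 = true := by decide +kernel

theorem v81 : chkV 112 81 sP boxP labF posF (foldN 84 56) (sideN 84) TW 81 c81 = true := by decide +kernel

theorem v82 : chkV 112 81 sP boxP labF posF (foldN 84 56) (sideN 84) TW 82 c82 = true := by decide +kernel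

theorem v83 : chkV 112 81 sP boxP labF posF (foldN 84 56) (sideN 84) TW 83 c83 = true := by decide +kernel

theorem vs5 (v : ℕ) (h1 : 70 ≤ v) (h2 : v < 84) :
    ∃ c, chkV 112 81 sP boxP labF posF (foldN 84 56) (sideN 84) TW v c = true := by
  interval_cases v
  exacts [⟨c70, v70⟩, ⟨c71, v71⟩, ⟨c72, v72⟩, ⟨c73, v73⟩, ⟨c74, v74⟩, ⟨c75, v75⟩, ⟨c76, v76⟩, ⟨c77, v77⟩, ⟨c78, v78⟩, ⟨c79, v79⟩, ⟨c80, v80⟩, ⟨c81, v81⟩, ⟨c82, v82⟩, ⟨c83, v83⟩]

end Pool.CX.D4
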