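import Pool.Agent.Helper34.CX.D4.Cx
import Pool.Agent.Helper34.CX.D4.Pt

/-!
# Project CX (MP_f22a19_gt): fans (generated data)
-/

set_option autoImplicit false

namespace Pool.CX.D4

open Pool.CX Helper69.CX

/-- certificate of a vertex -/
def c84 : VCert := ⟨q8, [e218 0, e219 4, e220 5, e221 6, e222 7, e223 9, e224 11, e225 12, e226 13, e227 14, e228 21, e229 22, e230 25, e231 42, e232 43, e233 44, e234 47, e235 87, e236 88, e237 91, e238 92, e239 93, e240 95, e241 97, e242 98, e243 99, e244 102, e245 104, e246 105, e247 109, e248 110, e249 111], (2, 1, 30)⟩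

/-- certificate of a vertex -/
def c85 : VCert := ⟨q8, [e221 0, e218 1, e219 5, e220 6, e226 7, e222 8, e223 10, e224 12, e225 13, e227 15, e228 22, e229 23, e230 26, e231 43, e232 44, e233 45, e234 48, e235 88, e236 89, e241 91, e237 92, e238 93, e239 94, e240 96, e245 98, e242 99, e243 100, e244 103, e249 105, e246 106, e247 110, e248 111], (Int.negSucc 12243, 4248, Int.negSucc 299999)⟩

/-- certificate of a vertex -/
def c86 : VCert := ⟨q8, [e220 0, e221 1, e218 2, e219 6, e225 7, e226 8, e222 9, e223 11, e224 13, e227 16, e228 23, e229 24, e230 27, e234 42, e231 44, e232 45, e233 46, e235 89, e236 90, e241 92, e237 93, e238 94, e239 95, e240 97, e245 99, e242 100, e243 101, e244 104, e248 105, e249 106, e246 107, e247 111], (Int.negSucc 12243, 4248, Int.negSucc 299999)⟩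

/-- certificate of a vertex -/
def c87 : VCert := ⟨q8, [e219 0, e220 1, e221 2, e218 3, e224 7, e225 8, e226 9, e222 10, e223 12, e227 17, e230 21, e228 24, e229 25, e234 43, e231 45, e232 46, e233 47, e236 84, e235 90, e240 91, e241 93, e237 94, e238 95, e239 96, e244 98, e245 100, e242 101, e243 102, e247 105, e248 106, e249 107, e246 108], (Int.negSucc 15, Int.negSucc 10, Int.negSucc 299)⟩

/-- certificate of a vertex -/
def c88 : VCert := ⟨q8, [e219 1, e220 2, e221 3, e218 4, e224 8, e225 9, e226 10, e222 11, e223 13, e227 18, e230 22, e228 25, e229 26, e234 44, e231 46, e232 47, e233 48, e235 84, e236 85, e240 92, e241 94, e237 95, e238 96, e239 97, e244 99, e245 101, e242 102, e243 103, e247 106, e248 107, e249 108, e246 109], (Int.negSucc 12243, 4248, Int.negSucc 299999)⟩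

/-- certificate of a vertex -/
def c89 : VCert := ⟨q8, [e219 2, e220 3, e221 4, e218 5, e223 7, e224 9, e225 10, e226 11, e222 12, e227 19, e230 23, e228 26, e229 27, e233 42, e234 45, e231 47, e232 48, e235 85, e236 86, e239 91, e240 93, e241 95, e237 96, e238 97, e244 100, e245 102, e242 103, e243 104, e247 107, e248 108, e249 109, e246 110], (Int.negSucc 101049, 40934, Int.negSucc 2999999)⟩

/-- certificate of a vertex -/
def c90 : VCert := ⟨q8, [e219 3, e220 4, e221 5, e218 6, e223 8, e224 10, e225 11, e226 12, e222 13, e227 20, e229 21, e230 24, e228 27, e232 42, e233 43, e234 46, e231 48, e235 86, e236 87, e238 91, e239 92, e240 94, e241 96, e237 97, e243 98, e244 101, e245 103, e242 104, e247 108, e248 109, e249 110, e246 111], (Int.negSucc 12243, 4248, Int.negSucc 299999)⟩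

/-- certificate of a vertex -/
def c91 : VCert := ⟨q9, [e250 7, e251 12, e252 14, e253 21, e254 28, e255 42, e256 84, e257 85, e258 87, e259 89, e260 90, e261 98, e262 104, e263 105], (Int.negSucc 99999, 955, Int.negSucc 68094)⟩

/-- certificate of a vertex -/
def c92 : VCert := ⟨q9, [e250 8, e251 13, e252 15, e253 22, e254 29, e255 43, e260 84, e256 85, e257 86, e258 88, e259 90, e262 98, e261 99, e263 106], (Int.negSucc 99999, 955, Int.negSucc 68094)⟩

/-- certificate of a vertex -/
def c93 : VCert := ⟨q9, [e251 7, e250 9, e252 16, e253 23, e254 30, e255 44, e259 84, e260 85, e256 86, e257 87, e258 89, e262 99, e261 100, e263 107], (300000, Int.negSucc 1622, 188322)⟩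

/-- certificate of a vertex -/
def c94 : VCert := ⟨q9, [e251 8, e250 10, e252 17, e253 24, e254 31, e255 45, e259 85, e260 86, e256 87, e257 88, e258 90, e262 100, e261 101, e263 108], (Int.negSucc 99999, 955, Int.negSucc 68094)⟩

/-- certificate of a vertex -/
def c95 : VCert := ⟨q9, [e251 9, e250 11, e252 18, e253 25, e254 32, e255 46, e258 84, e259 86, e260 87, e256 88, e257 89, e262 101, e261 102, e263 109], (Int.negSucc 99999, 955, Int.negSucc 68094)⟩

/-- certificate of a vertex -/
def c96 : VCert := ⟨q9, [e251 10, e250 12, e252 19, e253 26, e254 33, e255 47, e258 85, e259 87, e260 88, e256 89, e257 90, e262 102, e261 103, e263 110], (Int.negSucc 99999, 955, Int.negSucc 68094)⟩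

/-- certificate of a vertex -/
def c97 : VCert := ⟨q9, [e251 11, e250 13, e252 20, e253 27, e254 34, e255 48, e257 84, e258 86, e259 88, e260 89, e256 90, e262 103, e261 104, e263 111], (Int.negSucc 99999, 955, Int.negSucc 68094)⟩

theorem v84 : chkV 112 81 sP boxP labF posF (foldN 84 56) (sideN 84) TW 84 c84 = true := by decide +kernel

theorem v85 : chkV 112 81 sP boxP labF posF (foldN 84 56) (sideN 84) TW 85 c85 = true := by decide +kernel

theorem v86 : chkV 112 81 sP boxP labF posF (foldN 84 56) (sideN 84) TW 86 c86 = true := by decide +kernel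

theorem v87 : chkV 112 81 sP boxP labF posF (foldN 84 56) (sideN 84) TW 87 c87 = true := by decide +kernel

theorem v88 : chkV 112 81 sP boxP labF posF (foldN 84 56) (sideN 84) TW 88 c88 = true := by decide +kernel

theorem v89 : chkV 112 81 sP boxP labF posF (foldN 84 56) (sideN 84) TW 89 c89 = true := by decide +kernel

theorem v90 : chkV 112 81 sP boxP labF posF (foldN 84 56) (sideN 84) TW 90 c90 = true := by decide +kernel

theorem v91 : chkV 112 81 sP boxP labF posF (foldN 84 56) (sideN 84) TW 91 c91 = true := by decide +kernel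

theorem v92 : chkV 112 81 sP boxP labF posF (foldN 84 56) (sideN 84) TW 92 c92 = true := by decide +kernel

theorem v93 : chkV 112 81 sP boxP labF posF (foldN 84 56) (sideN 84) TW 93 c93 = true := by decide +kernel

theorem v94 : chkV 112 81 sP boxP labF posF (foldN 84 56) (sideN 84) TW 94 c94 = true := by decide +kernel

theorem v95 : chkV 112 81 sP boxP labF posF (foldN 84 56) (sideN 84) TW 95 c95 = true := by decide +kernel

theorem v96 : chkV 112 81 sP boxP labF posF (foldN 84 56) (sideN 84) TW 96 c96 = true := by decide +kernel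

theorem v97 : chkV 112 81 sP boxP labF posF (foldN 84 56) (sideN 84) TW 97 c97 = true := by decide +kernel

theorem vs6 (v : ℕ) (h1 : 84 ≤ v) (h2 : v < 98) :
    ∃ c, chkV 112 81 sP boxP labF posF (foldN 84 56) (sideN 84) TW v c = true := by
  interval_cases v
  exacts [⟨c84, v84⟩, ⟨c85, v85⟩, ⟨c86, v86⟩, ⟨c87, v87⟩, ⟨c88, v88⟩, ⟨c89, v89⟩, ⟨c90, v90⟩, ⟨c91, v91⟩, ⟨c92, v92⟩, ⟨c93, v93⟩, ⟨c94, v94⟩, ⟨c95, v95⟩, ⟨c96, v96⟩, ⟨c97, v97⟩]

end Pool.CX.D4
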