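import Pool.Agent.Helper34.CX.D4.Cx
import Pool.Agent.Helper34.CX.D4.Pt

/-!
# Project CX (MP_f22a19_gt): fans (generated data)
-/

set_option autoImplicit false

namespace Pool.CX.D4

open Pool.CX Helper69.CX

/-- certificate of a vertex -/
def c98 : VCert := ⟨q10, [e264 7, e265 13, e266 14, e267 21, e268 28, e269 35, e270 42, e271 43, e272 49, e273 84, e274 85, e275 87, e276 90, e277 91, e278 92, e279 99, e280 104, e281 105, e282 106], (Int.negSucc 9999, 4075, 22497)⟩

/-- certificate of a vertex -/
def c99 : VCert := ⟨q10, [e265 7, e264 8, e266 15, e267 22, e268 29, e269 36, e270 43, e271 44, e272 50, e276 84, e273 85, e274 86, e275 88, e277 92, e278 93, e280 98, e279 100, e281 106, e282 107], (30, Int.negSucc 0, 12)⟩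

/-- certificate of a vertex -/
def c100 : VCert := ⟨q10, [e265 8, e264 9, e266 16, e267 23, e268 30, e269 37, e270 44, e271 45, e272 51, e276 85, e273 86, e274 87, e275 89, e277 93, e278 94, e280 99, e279 101, e281 107, e282 108], (30, Int.negSucc 0, 12)⟩

/-- certificate of a vertex -/
def c101 : VCert := ⟨q10, [e265 9, e264 10, e266 17, e267 24, e268 31, e269 38, e270 45, e271 46, e272 52, e276 86, e273 87, e274 88, e275 90, e277 94, e278 95, e280 100, e279 102, e281 108, e282 109], (Int.negSucc 9999, 4075, 22497)⟩

/-- certificate of a vertex -/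
def c102 : VCert := ⟨q10, [e265 10, e264 11, e266 18, e267 25, e268 32, e269 39, e270 46, e271 47, e272 53, e275 84, e276 87, e273 88, e274 89, e277 95, e278 96, e280 101, e279 103, e281 109, e282 110], (30, Int.negSucc 0, 12)⟩

/-- certificate of a vertex -/
def c103 : VCert := ⟨q10, [e265 11, e264 12, e266 19, e267 26, e268 33, e269 40, e270 47, e271 48, e272 54, e275 85, e276 88, e273 89, e274 90, e277 96, e278 97, e280 102, e279 104, e281 110, e282 111], (Int.negSucc 9999, 4075, 22497)⟩

/-- certificate of a vertex -/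
def c104 : VCert := ⟨q10, [e265 12, e264 13, e266 20, e267 27, e268 34, e269 41, e271 42, e270 48, e272 55, e274 84, e275 86, e276 89, e273 90, e278 91, e277 97, e279 98, e280 103, e282 105, e281 111], (30, Int.negSucc 0, 12)⟩

/-- certificate of a vertex -/
def c105 : VCert := ⟨q11, [e283 0, e284 2, e285 6, e286 7, e287 12, e288 14, e289 21, e290 28, e291 42, e292 49, e293 84, e294 85, e295 86, e296 87, e297 91, e298 98, e299 104, e300 106, e301 107, e302 110, e303 111], (208, 12, 201)⟩

/-- certificate of a vertex -/
def c106 : VCert := ⟨q11, [e285 0, e283 1, e284 3, e286 8, e287 13, e288 15, e289 22, e290 29, e291 43, e292 50, e293 85, e294 86, e295 87, e296 88, e297 92, e299 98, e298 99, e303 105, e300 107, e301 108, e302 111], (Int.negSucc 539, 34, Int.negSucc 2504)⟩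

/-- certificate of a vertex -/
def c107 : VCert := ⟨q11, [e285 1, e283 2, e284 4, e287 7, e286 9, e288 16, e289 23, e290 30, e291 44, e292 51, e293 86, e294 87, e295 88, e296 89, e297 93, e299 99, e298 100, e302 105, e303 106, e300 108, e301 109], (300, Int.negSucc 1, 180)⟩

/-- certificate of a vertex -/
def c108 : VCert := ⟨q11, [e285 2, e283 3, e284 5, e287 8, e286 10, e288 17, e289 24, e290 31, e291 45, e292 52, e293 87, e294 88, e295 89, e296 90, e297 94, e299 100, e298 101, e302 106, e303 107, e300 109, e301 110], (Int.negSucc 539, 34, Int.negSucc 2504)⟩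

/-- certificate of a vertex -/
def c109 : VCert := ⟨q11, [e285 3, e283 4, e284 6, e287 9, e286 11, e288 18, e289 25, e290 32, e291 46, e292 53, e296 84, e293 88, e294 89, e295 90, e297 95, e299 101, e298 102, e302 107, e303 108, e300 110, e301 111], (30000, Int.negSucc 161, 18825)⟩

/-- certificate of a vertex -/
def c110 : VCert := ⟨q11, [e284 0, e285 4, e283 5, e287 10, e286 12, e288 19, e289 26, e290 33, e291 47, e292 54, e295 84, e296 85, e293 89, e294 90, e297 96, e299 102, e298 103, e301 105, e302 108, e303 109, e300 111], (634572, 42216, Int.negSucc 2999999)⟩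

/-- certificate of a vertex -/
def c111 : VCert := ⟨q11, [e284 1, e285 5, e283 6, e287 11, e286 13, e288 20, e289 27, e290 34, e291 48, e292 55, e294 84, e295 85, e296 86, e293 90, e297 97, e299 103, e298 104, e300 105, e301 106, e302 109, e303 110], (300, Int.negSucc 1, 180)⟩

theorem v98 : chkV 112 81 sP boxP labF posF (foldN 84 56) (sideN 84) TW 98 c98 = true := by decide +kernel

theorem v99 : chkV 112 81 sP boxP labF posF (foldN 84 56) (sideN 84) TW 99 c99 = true := by decide +kernel

theorem v100 : chkV 112 81 sP boxP labF posF (foldN 84 56) (sideN 84) TW 100 c100 = true := by decide +kernel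

theorem v101 : chkV 112 81 sP boxP labF posF (foldN 84 56) (sideN 84) TW 101 c101 = true := by decide +kernel

theorem v102 : chkV 112 81 sP boxP labF posF (foldN 84 56) (sideN 84) TW 102 c102 = true := by decide +kernel

theorem v103 : chkV 112 81 sP boxP labF posF (foldN 84 56) (sideN 84) TW 103 c103 = true := by decide +kernel

theorem v104 : chkV 112 81 sP boxP labF posF (foldN 84 56) (sideN 84) TW 104 c104 = true := by decide +kernel

theorem v105 : chkV 112 81 sP boxP labF posF (foldN 84 56) (sideN 84) TW 105 c105 = true := by decide +kernel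

theorem v106 : chkV 112 81 sP boxP labF posF (foldN 84 56) (sideN 84) TW 106 c106 = true := by decide +kernel

theorem v107 : chkV 112 81 sP boxP labF posF (foldN 84 56) (sideN 84) TW 107 c107 = true := by decide +kernel

theorem v108 : chkV 112 81 sP boxP labF posF (foldN 84 56) (sideN 84) TW 108 c108 = true := by decide +kernel

theorem v109 : chkV 112 81 sP boxP labF posF (foldN 84 56) (sideN 84) TW 109 c109 = true := by decide +kernel

theorem v110 : chkV 112 81 sP boxP labF posF (foldN 84 56) (sideN 84) TW 110 c110 = true := by decide +kernel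

theorem v111 : chkV 112 81 sP boxP labF posF (foldN 84 56) (sideN 84) TW 111 c111 = true := by decide +kernel

theorem vs7 (v : ℕ) (h1 : 98 ≤ v) (h2 : v < 112) :
    ∃ c, chkV 112 81 sP boxP labF posF (foldN 84 56) (sideN 84) TW v c = true := by
  interval_cases v
  exacts [⟨c98, v98⟩, ⟨c99, v99⟩, ⟨c100, v100⟩, ⟨c101, v101⟩, ⟨c102, v102⟩, ⟨c103, v103⟩, ⟨c104, v104⟩, ⟨c105, v105⟩, ⟨c106, v106⟩, ⟨c107, v107⟩, ⟨c108, v108⟩, ⟨c109, v109⟩, ⟨c110, v110⟩, ⟨c111, v111⟩]

end Pool.CX.D4
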