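import Pool.Agent.Helper34.CX.D4.V0
import Pool.Agent.Helper34.CX.D4.V1
import Pool.Agent.Helper34.CX.D4.V2
import Pool.Agent.Helper34.CX.D4.V3
import Pool.Agent.Helper34.CX.D4.V4
import Pool.Agent.Helper34.CX.D4.V5
import Pool.Agent.Helper34.CX.D4.V6
import Pool.Agent.Helper34.CX.D4.V7

/-!
# Project CX (MP_f22a19_gt): all fans
-/

set_option autoImplicit false

namespace Pool.CX.D4

open Pool.CX Helper69.CX

theorem fan_ok : ∀ v < 112, ∃ c, chkV 112 81 sP boxP labF posF (foldN 84 56) (sideN 84) TW v c = true := by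
  intro v hv
  by_cases h0 : v < 14
  · exact vs0 v (Nat.zero_le v) h0
  by_cases h1 : v < 28
  · exact vs1 v (not_lt.1 h0) h1
  by_cases h2 : v < 42
  · exact vs2 v (not_lt.1 h1) h2
  by_cases h3 : v < 56
  · exact vs3 v (not_lt.1 h2) h3
  by_cases h4 : v < 70
  · exact vs4 v (not_lt.1 h3) h4
  by_cases h5 : v < 84
  · exact vs5 v (not_lt.1 h4) h5
  by_cases h6 : v < 98
  · exact vs6 v (not_lt.1 h5) h6
  exact vs7 v (not_lt.1 h6) hv

end Pool.CX.D4
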