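import Pool.Agent.Helper34.CX.D4.Cx
import Pool.Agent.Helper34.CX.D4.Pt

/-!
# Project CX (MP_f22a19_gt): the labels
-/

set_option autoImplicit false

namespace Pool.CX.D4

open Pool.CX Helper69.CX

theorem inv_ok : chkInv relT0.has 8 invTab 81 = true := by decide +kernel

theorem lab_ok : chkLabE 112 84 56 labF (edI 81 8 256 labTab) relT0.has (bdHas bdsP) TW = true := by
  decide +kernel

theorem pos_ok : ∀ u < 56, (posF u).z = 0 := by
  have h : (List.range 56).all (fun u => decide ((posF u).z = 0)) = true := by decide +kernel
  intro u hu
  have := List.all_eq_true.1 h u (List.mem_range.2 hu)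
  simpa using this

end Pool.CX.D4
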