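import Pool.Agent.Helper34.CX.D4.Pt

/-!
# Project CX (MP_f22a19_gt): the real point
-/

set_option autoImplicit false

namespace Pool.CX.D4

open Pool.CX Pool.Agent.Helper68.NF

theorem root_ok : rootT dP loP hiP fP = true := by decide +kernel

theorem data_ok : dataT fP lsP invP = true := by decide +kernel

theorem rel_ok : relT fP lsP relP = true := by decide +kernel

theorem bd_ok : bdT lsP bdsP = true := by decide +kernel

theorem box_ok : boxesT dP loP hiP sP lsP boxP = true := by decide +kernel

theorem len_ok : lsP.length = 81 := by decide +kernel

/-- the real point -/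
theorem point : Nonempty (RealPoint 81 relP bdsP boxP sP) := by
  have h := realPoint (by rw [len_ok]; norm_num) root_ok data_ok rel_ok bd_ok box_ok
  rwa [len_ok] at h

end Pool.CX.D4
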