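import Pool.Agent.Helper26.PM.Val
import Pool.Agent.Helper93.CX.LabW
import Pool.Agent.Helper34.CX.Look

/-!
# Project CX (MP_f22a19_gt): the projective labels (generated data)
-/

set_option autoImplicit false

namespace Pool.CX.D4

open Pool.CX Helper69.CX Pool.Agent.Helper68.BW

/-- matrix of the word 1 -/
def m0 : QM := (((Int.negSucc 0, Int.negSucc 0), (0, 0)), ((0, 0), (Int.negSucc 0, Int.negSucc 0)))

/-- matrix of the word l -/
def m1 : QM := (((Int.negSucc 0, Int.negSucc 0), (Int.negSucc 0, Int.negSucc 0)), ((0, 0), (Int.negSucc 0, Int.negSucc 0)))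

/-- matrix of the word XXLXXXLXX -/
def m2 : QM := (((Int.negSucc 0, Int.negSucc 0), (0, Int.negSucc 0)), ((0, 0), (Int.negSucc 0, Int.negSucc 0)))

/-- matrix of the word LXX -/
def m3 : QM := (((Int.negSucc 1, Int.negSucc 0), (1, 1)), ((Int.negSucc 0, 2), (1, 0)))

/-- matrix of the word L -/
def m4 : QM := (((Int.negSucc 0, Int.negSucc 0), (1, 1)), ((0, 0), (Int.negSucc 0, Int.negSucc 0)))

/-- matrix of the word LXXLXXXLXX -/
def m5 : QM := (((Int.negSucc 0, Int.negSucc 0), (1, 0)), ((0, 0), (Int.negSucc 0, Int.negSucc 0)))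

/-- matrix of the word LLXX -/
def m6 : QM := (((Int.negSucc 2, Int.negSucc 1), (1, 1)), ((2, 3), (0, Int.negSucc 0)))

/-- matrix of the word xxlxxxlxx -/
def m7 : QM := (((Int.negSucc 0, Int.negSucc 0), (0, 1)), ((0, 0), (Int.negSucc 0, Int.negSucc 0)))

/-- matrix of the word xxlxxxlxxl -/
def m8 : QM := (((Int.negSucc 0, Int.negSucc 0), (Int.negSucc 0, 0)), ((0, 0), (Int.negSucc 0, Int.negSucc 0)))

/-- matrix of the word Lxxlxxxl -/
def m9 : QM := (((Int.negSucc 0, Int.negSucc 0), (0, 0)), ((3, 1), (Int.negSucc 0, Int.negSucc 0)))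

/-- matrix of the word xxl -/
def m10 : QM := (((Int.negSucc 0, Int.negSucc 0), (0, 1)), ((Int.negSucc 2, Int.negSucc 0), (1, 2)))

/-- matrix of the word xxll -/
def m11 : QM := (((Int.negSucc 0, Int.negSucc 0), (Int.negSucc 0, 0)), ((Int.negSucc 2, Int.negSucc 0), (Int.negSucc 1, 1)))

/-- matrix of the word LXXXLXXl -/
def m12 : QM := (((Int.negSucc 0, Int.negSucc 0), (0, 0)), ((Int.negSucc 2, Int.negSucc 0), (Int.negSucc 0, Int.negSucc 0)))

/-- matrix of the word xxlx -/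
def m13 : QM := (((Int.negSucc 0, Int.negSucc 0), (1, 1)), ((Int.negSucc 1, Int.negSucc 2), (1, 2)))

/-- matrix of the word xxlxLXX -/
def m14 : QM := (((Int.negSucc 2, Int.negSucc 1), (1, 1)), ((Int.negSucc 4, Int.negSucc 3), (2, 2)))

/-- matrix of the word xxlxl -/
def m15 : QM := (((Int.negSucc 0, Int.negSucc 0), (0, 0)), ((Int.negSucc 1, Int.negSucc 2), (Int.negSucc 0, Int.negSucc 0)))

/-- matrix of the word XLXX -/
def m16 : QM := (((Int.negSucc 1, Int.negSucc 0), (1, 0)), ((Int.negSucc 2, Int.negSucc 0), (1, 0)))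

/-- matrix of the word xxlXLXX -/
def m17 : QM := (((Int.negSucc 1, Int.negSucc 1), (1, 1)), ((Int.negSucc 4, Int.negSucc 3), (3, 2)))

/-- matrix of the word LXLXX -/
def m18 : QM := (((Int.negSucc 0, Int.negSucc 0), (0, 0)), ((2, 3), (Int.negSucc 0, Int.negSucc 0)))

/-- matrix of the word xxlxxl -/
def m19 : QM := (((Int.negSucc 1, Int.negSucc 0), (0, 1)), ((Int.negSucc 2, Int.negSucc 0), (0, 2)))

/-- matrix of the word Lxl -/
def m20 : QM := (((Int.negSucc 1, Int.negSucc 0), (0, 1)), ((2, 3), (1, 0)))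

/-- matrix of the word LXXLXX -/
def m21 : QM := (((Int.negSucc 1, Int.negSucc 1), (1, 1)), ((Int.negSucc 0, 2), (1, Int.negSucc 0)))

/-- matrix of the word LXl -/
def m22 : QM := (((Int.negSucc 0, Int.negSucc 0), (Int.negSucc 0, 0)), ((Int.negSucc 0, 2), (1, 2)))

/-- matrix of the word xxlxxlxxlXXLXXXLXX -/
def m23 : QM := (((Int.negSucc 1, Int.negSucc 1), (Int.negSucc 0, Int.negSucc 0)), ((Int.negSucc 4, Int.negSucc 3), (Int.negSucc 1, Int.negSucc 1)))

/-- matrix of the word xxlxxxlxxLXXLXXLXX -/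
def m24 : QM := (((Int.negSucc 1, Int.negSucc 1), (1, 1)), ((5, 4), (Int.negSucc 1, Int.negSucc 1)))

/-- matrix of the word Lxxlxxl -/
def m25 : QM := (((Int.negSucc 0, Int.negSucc 0), (Int.negSucc 0, 0)), ((2, 3), (2, 0)))

/-- matrix of the word LXXLXXl -/
def m26 : QM := (((Int.negSucc 1, Int.negSucc 1), (Int.negSucc 0, Int.negSucc 0)), ((Int.negSucc 0, 2), (0, 1)))

/-- matrix of the word xxlxxlXXLXXXLXX -/
def m27 : QM := (((Int.negSucc 1, Int.negSucc 0), (Int.negSucc 0, Int.negSucc 0)), ((Int.negSucc 2, Int.negSucc 0), (Int.negSucc 1, Int.negSucc 0)))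

/-- matrix of the word xxlxxxlxxLXXLXX -/
def m28 : QM := (((Int.negSucc 1, Int.negSucc 0), (1, 1)), ((3, 1), (Int.negSucc 1, Int.negSucc 0)))

/-- matrix of the word LXXXLXX -/
def m29 : QM := (((Int.negSucc 0, Int.negSucc 0), (1, 1)), ((Int.negSucc 2, Int.negSucc 0), (2, 0)))

/-- matrix of the word xxlxxxl -/
def m30 : QM := (((Int.negSucc 1, Int.negSucc 1), (0, 1)), ((Int.negSucc 1, Int.negSucc 2), (0, 1)))

/-- matrix of the word xxlxxxlxxxl -/
def m31 : QM := (((Int.negSucc 0, Int.negSucc 0), (0, 0)), ((1, Int.negSucc 1), (Int.negSucc 0, Int.negSucc 0)))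

/-- matrix of the word LXXXLXXXLXX -/
def m32 : QM := (((Int.negSucc 0, Int.negSucc 0), (0, 0)), ((Int.negSucc 0, 2), (Int.negSucc 0, Int.negSucc 0)))

/-- matrix of the word LXXX -/
def m33 : QM := (((Int.negSucc 1, Int.negSucc 1), (0, 1)), ((Int.negSucc 3, 1), (3, 2)))

/-- matrix of the word xxxl -/
def m34 : QM := (((Int.negSucc 2, Int.negSucc 1), (0, 1)), ((Int.negSucc 3, 1), (2, 2)))

/-- the matrices of the letters -/
def matT : BT QM :=
  .node (.node (.node (.node (.node (.node (.node .nil 0 m0 .nil) 1 m1 .nil) 2 m2 (.node (.node .nil 3 m3 .nil) 4 m4 .nil)) 5 m5 (.node (.node (.node .nil 6 m6 .nil) 7 m7 .nil) 8 m8 (.node .nil 9 m9 .nil))) 10 m10 (.node (.node (.node (.node .nil 11 m11 .nil) 12 m12 .nil) 13 m0 (.node .nil 14 m4 .nil)) 15 m10 (.node (.node (.node .nil 16 m0 .nil) 17 m1 .nil) 18 m3 (.node .nil 19 m11 .nil)))) 20 m1 (.node (.node (.node (.node (.node .nil 21 m6 .nil) 22 m4 .nil) 23 m3 (.node .nil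 24 m0 .nil)) 25 m1 (.node (.node (.node .nil 26 m10 .nil) 27 m0 .nil) 28 m4 (.node .nil 29 m13 .nil))) 30 m14 (.node (.node (.node (.node .nil 31 m15 .nil) 32 m16 .nil) 33 m17 (.node .nil 34 m18 .nil)) 35 m19 (.node (.node (.node .nil 36 m15 .nil) 37 m20 .nil) 38 m21 (.node .nil 39 m18 .nil))))) 40 m22 (.node (.node (.node (.node (.node (.node .nil 41 m23 .nil) 42 m24 .nil) 43 m25 (.node (.node .nil 44 m26 .nil) 45 m27 .nil)) 46 m28 (.node (.node (.node .nil 47 m21 .nil) 48 m12 .nil) 49 m19 (.node .nil 50 m9 .nil))) 51 m22 (.node (.node (.node (.node .nil 52 m20 .nil) 53 m29 .nil) 54 m30 (.node .nil 55 m19 .nil)) 56 m21 (.node (.node (.node .nil 57 m31 .nil) 58 m32 .nil) 59 m30 (.node .nil 60 m33 .nil)))) 61 m29 (.node (.node (.node (.node (.node .nil 62 m34 .nil) 63 m18 .nil) 64 m15 (.node .nil 65 m32 .nil)) 66 m12 (.node (.node (.node .nil 67 m5 .nil) 68 m31 .nil) 69 m9 (.node .nil 70 m8 .nil))) 71 m12 (.node (.node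 (.node (.node .nil 72 m9 .nil) 73 m15 .nil) 74 m18 (.node .nil 75 m5 .nil)) 76 m8 (.node (.node (.node .nil 77 m30 .nil) 78 m29 .nil) 79 m29 (.node .nil 80 m30 .nil)))))

/-- the matrices of the letters -/
def matF (i : ℕ) : QM := matT.get m0 i

/-- a point of the projective line -/
def p0 : QV := ((Int.negSucc 0, Int.negSucc 0), (0, 0))

/-- a point of the projective line -/
def p1 : QV := ((0, 0), (Int.negSucc 0, Int.negSucc 0))

/-- the points of the vertices -/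
def qT : BT QV :=
  .node (.node (.node (.node (.node (.node (.node .nil 0 p0 .nil) 1 p0 .nil) 2 p0 (.node (.node .nil 3 p0 .nil) 4 p0 .nil)) 5 p0 (.node (.node (.node .nil 6 p0 .nil) 7 p1 .nil) 8 p1 (.node .nil 9 p1 .nil))) 10 p1 (.node (.node (.node (.node .nil 11 p1 .nil) 12 p1 .nil) 13 p1 (.node (.node .nil 14 p1 .nil) 15 p1 .nil)) 16 p1 (.node (.node (.node .nil 17 p1 .nil) 18 p1 .nil) 19 p1 (.node .nil 20 p1 .nil)))) 21 p1 (.node (.node (.node (.node (.node .nil 22 p1 .nil) 23 p1 .nil) 24 p1 (.node (.node .nil 25 p1 .nil) 26 p1 .nil)) 27 p1 (.node (.node (.node .nil 28 p1 .nil) 29 p1 .nil) 30 p1 (.node .nil 31 p1 .nil))) 32 p1 (.node (.node (.node (.node .nil 33 p1 .nil) 34 p1 .nil) 35 p1 (.node .nil 36 p1 .nil)) 37 p1 (.node (.node (.node .nil 38 p1 .nil) 39 p1 .nil) 40 p1 (.node .nil 41 p1 .nil))))) 42 p1 (.node (.node (.node (.node (.node (.node .nil 43 p1 .nil) 44 p1 .nil) 45 p1 (.node (.node .nil 46 p1 .nil)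 47 p1 .nil)) 48 p1 (.node (.node (.node .nil 49 p1 .nil) 50 p1 .nil) 51 p1 (.node .nil 52 p1 .nil))) 53 p1 (.node (.node (.node (.node .nil 54 p1 .nil) 55 p1 .nil) 56 p1 (.node .nil 57 p1 .nil)) 58 p1 (.node (.node (.node .nil 59 p1 .nil) 60 p1 .nil) 61 p1 (.node .nil 62 p1 .nil)))) 63 p1 (.node (.node (.node (.node (.node .nil 64 p1 .nil) 65 p1 .nil) 66 p1 (.node (.node .nil 67 p1 .nil) 68 p1 .nil)) 69 p1 (.node (.node (.node .nil 70 p1 .nil) 71 p1 .nil) 72 p1 (.node .nil 73 p1 .nil))) 74 p1 (.node (.node (.node (.node .nil 75 p1 .nil) 76 p1 .nil) 77 p1 (.node .nil 78 p1 .nil)) 79 p1 (.node (.node (.node .nil 80 p1 .nil) 81 p1 .nil) 82 p1 (.node .nil 83 p1 .nil)))))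

/-- the points of the vertices -/
def qF (u : ℕ) : QV := qT.get p0 u

/-- the relations of the projective labels -/
def relV : RT :=
  .node (.node (.node (.node (.node (.node (.node (.node (.node .nil 0 0 0 .nil) 0 1 1 .nil) 0 2 2 (.node .nil 0 3 3 .nil)) 0 4 4 (.node (.node .nil 0 5 5 .nil) 0 6 6 (.node .nil 0 7 7 .nil))) 0 8 8 (.node (.node (.node .nil 0 9 9 .nil) 0 13 13 (.node .nil 0 14 14 .nil)) 0 15 15 (.node (.node .nil 0 19 19 .nil) 0 23 23 (.node .nil 0 24 24 .nil)))) 0 25 25 (.node (.node (.node (.node .nil 0 29 29 .nil) 0 30 30 (.node .nil 0 31 31 .nil)) 0 35 35 (.node (.node .nil 0 47 47 .nil) 0 48 48 (.node .nil 0 51 51 .nil))) 0 53 53 (.node (.node (.node .nil 0 57 57 .nil) 0 59 59 (.node .nil 0 60 60 .nil)) 0 63 63 (.node (.node .nil 0 65 65 .nil) 0 66 66 (.node .nil 0 71 71 .nil))))) 0 73 73 (.node (.node (.node (.node (.node .nil 0 75 75 .nil) 0 77 77 (.node .nil 0 79 79 .nil)) 1 0 1 (.node (.node .nil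 1 4 0 .nil) 1 5 2 (.node .nil 1 6 3 .nil))) 1 7 8 (.node (.node (.node .nil 1 9 77 .nil) 1 14 13 (.node .nil 2 0 2 .nil)) 2 4 5 (.node (.node .nil 2 7 0 .nil) 2 8 1 (.node .nil 2 9 3 .nil)))) 3 0 3 (.node (.node (.node (.node .nil 3 10 0 .nil) 3 11 1 (.node .nil 3 12 2 .nil)) 3 15 13 (.node (.node .nil 3 78 5 .nil) 3 79 75 (.node .nil 4 0 4 .nil))) 4 1 0 (.node (.node (.node .nil 4 2 5 .nil) 4 3 6 (.node .nil 4 8 7 .nil)) 4 13 14 (.node (.node .nil 4 77 9 .nil) 5 0 5 (.node .nil 5 1 2 .nil)))))) 5 7 4 (.node (.node (.node (.node (.node (.node .nil 5 8 0 .nil) 5 9 6 (.node .nil 5 13 75 .nil)) 5 77 3 (.node (.node .nil 6 0 6 .nil) 6 10 4 (.node .nil 6 11 0 .nil))) 6 12 5 (.node (.node (.node .nil 6 15 14 .nil) 6 19 13 (.node .nil 6 66 75 .nil)) 7 0 7 (.node (.node .nil 7 1 8 .nil) 7 2 0 (.node .nil 7 3 9 .nil)))) 7 5 4 (.node (.node (.node (.node .nil 8 0 8 .nil) 8 2 1 (.node .nil 8 3 77 .nil)) 8 4 7 (.node (.node .nil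 8 5 0 .nil) 8 6 9 (.node .nil 8 75 13 .nil))) 9 0 9 (.node (.node (.node .nil 9 10 7 .nil) 9 11 8 (.node .nil 9 12 0 .nil)) 9 66 13 (.node (.node .nil 9 78 4 .nil) 9 79 14 (.node .nil 13 0 13 .nil))))) 13 16 0 (.node (.node (.node (.node (.node .nil 13 17 1 .nil) 13 18 3 (.node .nil 13 21 6 .nil)) 13 22 14 (.node (.node .nil 13 67 75 .nil) 13 69 9 (.node .nil 13 76 8 .nil))) 13 80 77 (.node (.node (.node .nil 14 0 14 .nil) 14 16 4 (.node .nil 14 17 0 .nil)) 14 18 6 (.node (.node .nil 14 20 13 .nil) 14 80 9 (.node .nil 15 0 15 .nil)))) 15 18 0 (.node (.node (.node (.node .nil 15 67 79 .nil) 19 0 19 (.node .nil 19 21 0 .nil)) 19 67 66 (.node (.node .nil 23 0 23 .nil) 23 15 24 (.node .nil 23 18 47 .nil))) 23 19 25 (.node (.node (.node .nil 23 26 0 .nil) 23 45 48 (.node .nil 24 0 24 .nil)) 24 18 23 (.node (.node .nil 24 20 25 .nil) 24 27 0 (.node .nil 24 36 31 .nil))))))) 24 39 63 (.node (.node (.node (.node (.node (.node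 (.node .nil 24 40 51 .nil) 24 55 35 (.node .nil 24 56 47 .nil)) 24 64 73 (.node (.node .nil 24 66 48 .nil) 24 68 57 (.node .nil 24 80 59 .nil))) 25 0 25 (.node (.node (.node .nil 25 21 23 .nil) 25 22 24 (.node .nil 25 28 0 .nil)) 25 42 30 (.node (.node .nil 25 43 35 .nil) 25 46 29 (.node .nil 25 69 59 .nil)))) 29 0 29 (.node (.node (.node (.node .nil 29 15 59 .nil) 29 18 30 (.node .nil 29 20 31 .nil)) 29 32 0 (.node (.node .nil 29 45 25 .nil) 29 54 57 (.node .nil 30 0 30 .nil))) 30 15 29 (.node (.node (.node .nil 30 19 31 .nil) 30 33 0 (.node .nil 30 36 35 .nil)) 30 41 25 (.node (.node .nil 31 0 31 .nil) 31 21 30 (.node .nil 31 22 29 .nil))))) 31 27 73 (.node (.node (.node (.node (.node .nil 31 34 0 .nil) 31 37 35 (.node .nil 31 39 24 .nil)) 31 50 57 (.node (.node .nil 35 0 35 .nil) 35 38 0 (.node .nil 35 39 30 .nil))) 35 40 31 (.node (.node (.node .nil 35 44 25 .nil) 35 56 24 (.node .nil 47 0 47 .nil)) 47 15 23 (.node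 (.node .nil 47 36 51 .nil) 47 41 48 (.node .nil 47 49 0 .nil)))) 47 55 24 (.node (.node (.node (.node .nil 48 0 48 .nil) 48 22 53 (.node .nil 48 27 71 .nil)) 48 42 47 (.node (.node .nil 48 43 51 .nil) 48 46 23 (.node .nil 48 50 0 .nil))) 48 68 73 (.node (.node (.node .nil 48 69 24 .nil) 51 0 51 (.node .nil 51 18 60 .nil)) 51 21 63 (.node (.node .nil 51 37 24 .nil) 51 39 47 (.node .nil 51 44 48 .nil)))))) 51 52 0 (.node (.node (.node (.node (.node (.node .nil 51 56 53 .nil) 51 67 65 (.node .nil 53 0 53 .nil)) 53 15 60 (.node (.node .nil 53 20 48 .nil) 53 54 0 (.node .nil 53 55 51 .nil))) 57 0 57 (.node (.node (.node .nil 57 48 31 .nil) 57 53 29 (.node .nil 57 58 0 .nil)) 57 60 59 (.node (.node .nil 57 65 24 .nil) 57 71 73 (.node .nil 59 0 59 .nil)))) 59 18 29 (.node (.node (.node (.node .nil 59 61 0 .nil) 59 62 57 (.node .nil 59 66 25 .nil)) 59 79 24 (.node (.node .nil 60 0 60 .nil) 60 15 51 (.node .nil 60 18 53 .nil)))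 60 62 0 (.node (.node (.node .nil 60 79 65 .nil) 63 0 63 (.node .nil 63 19 51 .nil)) 63 36 24 (.node (.node .nil 63 64 0 .nil) 63 66 65 (.node .nil 65 0 65 .nil))))) 65 68 0 (.node (.node (.node (.node (.node .nil 65 69 63 .nil) 65 70 51 (.node .nil 65 80 60 .nil)) 66 0 66 (.node (.node .nil 66 69 0 .nil) 66 70 19 (.node .nil 71 0 71 .nil))) 71 24 48 (.node (.node (.node .nil 71 57 73 .nil) 71 72 0 (.node .nil 73 0 73 .nil)) 73 24 31 (.node (.node .nil 73 58 71 .nil) 73 63 24 (.node .nil 73 65 48 .nil)))) 73 72 57 (.node (.node (.node (.node .nil 73 74 0 .nil) 75 0 75 (.node .nil 75 16 5 .nil)) 75 69 6 (.node (.node .nil 75 70 13 .nil) 75 76 0 (.node .nil 75 80 3 .nil))) 77 0 77 (.node (.node (.node .nil 77 10 8 .nil) 77 12 1 (.node .nil 77 78 0 .nil)) 77 79 13 (.node (.node .nil 79 0 79 .nil) 79 70 15 (.node .nil 79 80 0 .nil)))))))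

end Pool.CX.D4
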