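import Pool.Agent.Helper34.CX.D4.Cx
import Pool.Agent.Helper34.CX.D4.Val

/-!
# Project CX (MP_f22a19_gt): the projective labels and the value
-/

set_option autoImplicit false

namespace Pool.CX.D4

open Pool.CX Helper69.CX Pool.Agent.Helper26.PM

theorem mat_ok : (Pool.Agent.Helper26.PM.VData.mk 84 56 labF matF qF).chkMat relV.toList = true := by decide +kernel

theorem all_ok : TW.all (fun s => chkRel relV.has labF ((vl s).map (Pool.Agent.Helper26.PM.VData.mk 84 56 labF matF qF).fold) && (Pool.Agent.Helper26.PM.VData.mk 84 56 labF matF qF).chkAdm s) = true := by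
  decide +kernel

theorem val_ok : (Pool.Agent.Helper26.PM.VData.mk 84 56 labF matF qF).chkVal TW 28 0 = true := by decide +kernel

end Pool.CX.D4
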