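import Pool.Agent.Helper34.CX.D4.CxOk
import Pool.Agent.Helper34.CX.D4.LabOk
import Pool.Agent.Helper34.CX.D4.PtOk
import Pool.Agent.Helper34.CX.D4.Fan
import Pool.Agent.Helper34.CX.D4.ValOk
import Pool.Agent.Helper34.CX.Fin

/-!
# Project CX (MP_f22a19_gt): the counterexample
-/

set_option autoImplicit false

namespace Pool.CX.D4

open Pool.CX Helper69.CX

theorem scale_pos : (0 : ℤ) < sP := by decide +kernel

/-- **There is a closed affine 3-manifold with positive simplicial volume.** -/
theorem cx : Counterexample :=
  counterexample_of_data (n := 112) cert_ok inv_ok lab_ok point scale_pos pos_ok fan_ok mat_ok all_ok val_ok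
    (by norm_num)

end Pool.CX.D4
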