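import Pool.Agent.Helper34.CX.D4.Cx
import Pool.Agent.Helper34.CX.D4.Pt

/-!
# Project CX (MP_f22a19_gt): fans (generated data)
-/

set_option autoImplicit false

namespace Pool.CX.D4

open Pool.CX Helper69.CX

/-- certificate of a vertex -/
def c0 : VCert := ⟨q0, [e0 1, e1 2, e2 3, e3 4, e4 5, e5 6, e6 56, e7 57, e8 58, e9 59, e10 77, e11 78, e12 82, e13 84, e14 85, e15 86, e16 87, e17 105, e18 106, e19 110], (3, Int.negSucc 2, Int.negSucc 9)⟩

/-- certificate of a vertex -/
def c1 : VCert := ⟨q0, [e5 0, e0 2, e1 3, e2 4, e3 5, e4 6, e6 57, e7 58, e8 59, e9 60, e10 78, e11 79, e12 83, e13 85, e14 86, e15 87, e16 88, e17 106, e18 107, e19 111], (3, 258, Int.negSucc 99)⟩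

/-- certificate of a vertex -/
def c2 : VCert := ⟨q0, [e4 0, e5 1, e0 3, e1 4, e2 5, e3 6, e6 58, e7 59, e8 60, e9 61, e12 77, e10 79, e11 80, e13 86, e14 87, e15 88, e16 89, e19 105, e17 107, e18 108], (2, Int.negSucc 21, Int.negSucc 9)⟩

/-- certificate of a vertex -/
def c3 : VCert := ⟨q0, [e3 0, e4 1, e5 2, e0 4, e1 5, e2 6, e6 59, e7 60, e8 61, e9 62, e12 78, e10 80, e11 81, e13 87, e14 88, e15 89, e16 90, e19 106, e17 108, e18 109], (3, 258, Int.negSucc 99)⟩

/-- certificate of a vertex -/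
def c4 : VCert := ⟨q0, [e2 0, e3 1, e4 2, e5 3, e0 5, e1 6, e9 56, e6 60, e7 61, e8 62, e12 79, e10 81, e11 82, e16 84, e13 88, e14 89, e15 90, e19 107, e17 109, e18 110], (14, 18, Int.negSucc 299)⟩

/-- certificate of a vertex -/
def c5 : VCert := ⟨q0, [e1 0, e2 1, e3 2, e4 3, e5 4, e0 6, e8 56, e9 57, e6 61, e7 62, e12 80, e10 82, e11 83, e15 84, e16 85, e13 89, e14 90, e19 108, e17 110, e18 111], (3, 258, Int.negSucc 99)⟩

/-- certificate of a vertex -/
def c6 : VCert := ⟨q0, [e0 0, e1 1, e2 2, e3 3, e4 4, e5 5, e7 56, e8 57, e9 58, e6 62, e11 77, e12 81, e10 83, e14 84, e15 85, e16 86, e13 90, e18 105, e19 109, e17 111], (2, Int.negSucc 21, Int.negSucc 9)⟩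

/-- certificate of a vertex -/
def c7 : VCert := ⟨q1, [e20 14, e21 21, e22 28, e23 35, e24 42, e25 49, e26 56, e27 57, e28 58, e29 59, e30 61, e31 63, e32 65, e33 70, e34 71, e35 77, e36 79, e37 84, e38 85, e39 86, e40 87, e41 89, e42 91, e43 93, e44 98, e45 99, e46 105, e47 107], (Int.negSucc 19, Int.negSucc 4, 11)⟩

/-- certificate of a vertex -/
def c8 : VCert := ⟨q1, [e20 15, e21 22, e22 29, e23 36, e24 43, e25 50, e26 57, e27 58, e28 59, e29 60, e30 62, e31 64, e32 66, e33 71, e34 72, e35 78, e36 80, e37 85, e38 86, e39 87, e40 88, e41 90, e42 92, e43 94, e44 99, e45 100, e46 106, e47 108], (Int.negSucc 98304, 13682, 200000)⟩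

/-- certificate of a vertex -/
def c9 : VCert := ⟨q1, [e20 16, e21 23, e22 30, e23 37, e24 44, e25 51, e30 56, e26 58, e27 59, e28 60, e29 61, e31 65, e32 67, e33 72, e34 73, e35 79, e36 81, e41 84, e37 86, e38 87, e39 88, e40 89, e42 93, e43 95, e44 100, e45 101, e46 107, e47 109], (32, Int.negSucc 3, 3000)⟩

/-- certificate of a vertex -/
def c10 : VCert := ⟨q1, [e20 17, e21 24, e22 31, e23 38, e24 45, e25 52, e30 57, e26 59, e27 60, e28 61, e29 62, e31 66, e32 68, e33 73, e34 74, e35 80, e36 82, e41 85, e37 87, e38 88, e39 89, e40 90, e42 94, e43 96, e44 101, e45 102, e46 108, e47 110], (Int.negSucc 98304, 13682, 200000)⟩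

/-- certificate of a vertex -/
def c11 : VCert := ⟨q1, [e20 18, e21 25, e22 32, e23 39, e24 46, e25 53, e29 56, e30 58, e26 60, e27 61, e28 62, e31 67, e32 69, e33 74, e34 75, e35 81, e36 83, e40 84, e41 86, e37 88, e38 89, e39 90, e42 95, e43 97, e44 102, e45 103, e46 109, e47 111], (Int.negSucc 98304, 13682, 200000)⟩

/-- certificate of a vertex -/
def c12 : VCert := ⟨q1, [e20 19, e21 26, e22 33, e23 40, e24 47, e25 54, e28 56, e29 57, e30 59, e26 61, e27 62, e32 63, e31 68, e33 75, e34 76, e36 77, e35 82, e39 84, e40 85, e41 87, e37 89, e38 90, e43 91, e42 96, e44 103, e45 104, e47 105, e46 110], (Int.negSucc 98304, 13682, 200000)⟩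

/-- certificate of a vertex -/
def c13 : VCert := ⟨q1, [e20 20, e21 27, e22 34, e23 41, e24 48, e25 55, e27 56, e28 57, e29 58, e30 60, e26 62, e32 64, e31 69, e34 70, e33 76, e36 78, e35 83, e38 84, e39 85, e40 86, e41 88, e37 90, e43 92, e42 97, e45 98, e44 104, e47 106, e46 111], (Int.negSucc 98304, 13682, 200000)⟩

theorem v0 : chkV 112 81 sP boxP labF posF (foldN 84 56) (sideN 84) TW 0 c0 = true := by decide +kernel

theorem v1 : chkV 112 81 sP boxP labF posF (foldN 84 56) (sideN 84) TW 1 c1 = true := by decide +kernel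

theorem v2 : chkV 112 81 sP boxP labF posF (foldN 84 56) (sideN 84) TW 2 c2 = true := by decide +kernel

theorem v3 : chkV 112 81 sP boxP labF posF (foldN 84 56) (sideN 84) TW 3 c3 = true := by decide +kernel

theorem v4 : chkV 112 81 sP boxP labF posF (foldN 84 56) (sideN 84) TW 4 c4 = true := by decide +kernel

theorem v5 : chkV 112 81 sP boxP labF posF (foldN 84 56) (sideN 84) TW 5 c5 = true := by decide +kernel

theorem v6 : chkV 112 81 sP boxP labF posF (foldN 84 56) (sideN 84) TW 6 c6 = true := by decide +kernel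

theorem v7 : chkV 112 81 sP boxP labF posF (foldN 84 56) (sideN 84) TW 7 c7 = true := by decide +kernel

theorem v8 : chkV 112 81 sP boxP labF posF (foldN 84 56) (sideN 84) TW 8 c8 = true := by decide +kernel

theorem v9 : chkV 112 81 sP boxP labF posF (foldN 84 56) (sideN 84) TW 9 c9 = true := by decide +kernel

theorem v10 : chkV 112 81 sP boxP labF posF (foldN 84 56) (sideN 84) TW 10 c10 = true := by decide +kernel

theorem v11 : chkV 112 81 sP boxP labF posF (foldN 84 56) (sideN 84) TW 11 c11 = true := by decide +kernel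

theorem v12 : chkV 112 81 sP boxP labF posF (foldN 84 56) (sideN 84) TW 12 c12 = true := by decide +kernel

theorem v13 : chkV 112 81 sP boxP labF posF (foldN 84 56) (sideN 84) TW 13 c13 = true := by decide +kernel

theorem vs0 (v : ℕ) (h1 : 0 ≤ v) (h2 : v < 14) :
    ∃ c, chkV 112 81 sP boxP labF posF (foldN 84 56) (sideN 84) TW v c = true := by
  interval_cases v
  exacts [⟨c0, v0⟩, ⟨c1, v1⟩, ⟨c2, v2⟩, ⟨c3, v3⟩, ⟨c4, v4⟩, ⟨c5, v5⟩, ⟨c6, v6⟩, ⟨c7, v7⟩, ⟨c8, v8⟩, ⟨c9, v9⟩, ⟨c10, v10⟩, ⟨c11, v11⟩, ⟨c12, v12⟩, ⟨c13, v13⟩]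

end Pool.CX.D4
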